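import Pool.Agent.K6.H34.TT.Stm
import Pool.Agent.W29.RT.LOW4

/-!
# Project TT, part LOW2: there are many curves with full 2-torsion
-/

set_option autoImplicit false

namespace Pool.Agent.K6.H5.TT

open Finset Pool.Agent.K6.H34.TT WeierstrassCurve

lemma nonsE {A B : ℤ} {x : ℚ} (h : 0 = x ^ 3 + A * x + B)
    (h2 : 3 * x ^ 2 + A ≠ 0) : (E A B).toAffine.Nonsingular x 0 := by
  rw [Affine.nonsingular_iff, Affine.equation_iff]
  simp only [E]
  refine ⟨by linear_combination h, ?_⟩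
  left
  intro h3
  apply h2
  linarith

lemma negE {A B : ℤ} {x y : ℚ} : (E A B).toAffine.negY x y = -y := by
  simp [Affine.negY, E]

lemma embE {A B : ℤ} {a b : ℚ} (hA : (A : ℚ) = -(a ^ 2 + a * b + b ^ 2))
    (hB : (B : ℚ) = a * b * (a + b)) (h1 : a - b ≠ 0) (h2 : 2 * a + b ≠ 0) (h3 : a + 2 * b ≠ 0) :
    ∃ f : ZMod 2 × ZMod 2 →+ (E A B).toAffine.Point, Function.Injective f := by
  have hP : (E A B).toAffine.Nonsingular a 0 := by
    apply nonsE
    · rw [hA, hB]; ring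
    · rw [hA]
      have : 3 * a ^ 2 + -(a ^ 2 + a * b + b ^ 2) = (a - b) * (2 * a + b) := by ring
      rw [this]; positivity
  have hQ : (E A B).toAffine.Nonsingular b 0 := by
    apply nonsE
    · rw [hA, hB]; ring
    · rw [hA]
      have : 3 * b ^ 2 + -(a ^ 2 + a * b + b ^ 2) = -((a - b) * (a + 2 * b)) := by ring
      rw [this, neg_ne_zero]; positivity
  set P : (E A B).toAffine.Point := .some _ _ hP with hPd
  set Q : (E A B).toAffine.Point := .some _ _ hQ with hQd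
  have hPP : P + P = 0 := by
    rw [hPd]
    apply Affine.Point.add_self_of_Y_eq
    rw [negE]; simp
  have hQQ : Q + Q = 0 := by
    rw [hQd]
    apply Affine.Point.add_self_of_Y_eq
    rw [negE]; simp
  have hP0 : P ≠ 0 := Affine.Point.some_ne_zero hP
  have hQ0 : Q ≠ 0 := Affine.Point.some_ne_zero hQ
  have hPQ : P ≠ Q := by
    rw [hPd, hQd, Ne, Affine.Point.some.injEq]
    rintro ⟨h, -⟩
    apply h1
    rw [h, sub_self]
  let fP : ZMod 2 →+ (E A B).toAffine.Point :=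
    ZMod.lift 2 ⟨zmultiplesHom _ P, by simp [two_zsmul, hPP]⟩
  let fQ : ZMod 2 →+ (E A B).toAffine.Point :=
    ZMod.lift 2 ⟨zmultiplesHom _ Q, by simp [two_zsmul, hQQ]⟩
  have eP : fP 1 = P := by
    have := ZMod.lift_coe 2 ⟨zmultiplesHom (E A B).toAffine.Point P, by simp [two_zsmul, hPP]⟩ 1
    simpa using this
  have eQ : fQ 1 = Q := by
    have := ZMod.lift_coe 2 ⟨zmultiplesHom (E A B).toAffine.Point Q, by simp [two_zsmul, hQQ]⟩ 1
    simpa using this
  refine ⟨fP.coprod fQ, ?_⟩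
  rw [injective_iff_map_eq_zero]
  rintro ⟨x, y⟩ hxy
  rw [AddMonoidHom.coprod_apply] at hxy
  have c : ∀ z : ZMod 2, z = 0 ∨ z = 1 := by decide
  rcases c x with rfl | rfl <;> rcases c y with rfl | rfl
  · rfl
  · rw [map_zero, zero_add, eQ] at hxy
    exact absurd hxy hQ0
  · rw [map_zero, add_zero, eP] at hxy
    exact absurd hxy hP0
  · rw [eP, eQ] at hxy
    exfalso
    apply hPQ
    have : P = P + Q + Q := by rw [add_assoc, hQQ, add_zero]
    rw [this, hxy, zero_add]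

/-- the coefficients -/
def cf2 (t : ℕ × ℕ) : ℤ × ℤ :=
  (-((t.1 : ℤ) ^ 2 + (t.1 : ℤ) * (t.2 : ℤ) + (t.2 : ℤ) ^ 2),
    (t.1 : ℤ) * (t.2 : ℤ) * ((t.1 : ℤ) + (t.2 : ℤ)))

lemma minim2 {a b : ℤ} (h : IsCoprime a b) {p : ℕ} (hp : p.Prime)
    (h1 : (p : ℤ) ^ 4 ∣ -(a ^ 2 + a * b + b ^ 2))
    (h2 : (p : ℤ) ^ 6 ∣ a * b * (a + b)) : False := by
  have hpI : Prime (p : ℤ) := Nat.prime_iff_prime_int.1 hp
  have hnot : ¬ ((p : ℤ) ∣ a ∧ (p : ℤ) ∣ b) := by
    rintro ⟨ha, hb⟩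
    exact hpI.not_isUnit (h.isUnit_of_dvd' ha hb)
  have e1 : (p : ℤ) ∣ a ^ 2 + a * b + b ^ 2 :=
    (dvd_neg.1 ((dvd_pow_self _ (by norm_num)).trans h1))
  have e2 : (p : ℤ) ∣ a * b * (a + b) := (dvd_pow_self _ (by norm_num)).trans h2
  have key : (p : ℤ) ∣ a * b → False := by
    intro hab
    have e3 : (p : ℤ) ∣ a ^ 2 + b ^ 2 := by
      have : a ^ 2 + b ^ 2 = (a ^ 2 + a * b + b ^ 2) - a * b := by ring
      rw [this]
      exact dvd_sub e1 hab
    rcases hpI.dvd_or_dvd hab with h | h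
    · have h' : (p : ℤ) ∣ b ^ 2 := (dvd_add_right (dvd_pow h two_ne_zero)).1 e3
      exact hnot ⟨h, hpI.dvd_of_dvd_pow h'⟩
    · have h' : (p : ℤ) ∣ a ^ 2 := (dvd_add_left (dvd_pow h two_ne_zero)).1 e3
      exact hnot ⟨hpI.dvd_of_dvd_pow h', h⟩
  rcases hpI.dvd_or_dvd e2 with h | h
  · exact key h
  · apply key
    have : a * b = (a + b) * (a + b) - (a ^ 2 + a * b + b ^ 2) := by ring
    rw [this]
    exact dvd_sub (h.mul_right _) e1

lemma cf2_inj {a b a' b' : ℤ} (hb : 1 ≤ b) (hab : b < a) (hb' : 1 ≤ b') (hab' : b' < a')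
    (h1 : -(a ^ 2 + a * b + b ^ 2) = -(a' ^ 2 + a' * b' + b' ^ 2))
    (h2 : a * b * (a + b) = a' * b' * (a' + b')) : a = a' ∧ b = b' := by
  have H : ∀ x : ℤ, (x - a) * (x - b) * (x - (-(a + b))) =
      (x - a') * (x - b') * (x - (-(a' + b'))) := by
    intro x
    linear_combination x * h1 + h2
  have t1 := Pool.Agent.W29.RT.top_root H (by linarith) (by linarith) (by linarith) (by linarith)
  have H2 : ∀ x : ℤ, (x - (a + b)) * (x - (-a)) * (x - (-b)) =
      (x - (a' + b')) * (x - (-a')) * (x - (-b')) := by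
    intro x
    have := H (-x)
    linear_combination (-1) * this
  have t2 := Pool.Agent.W29.RT.top_root H2 (by linarith) (by linarith) (by linarith) (by linarith)
  exact ⟨t1, by linarith⟩

theorem mem_fam {T H a b : ℕ} (hb : 1 ≤ b) (hab : b < a) (haT : a ≤ T) (hc : a.Coprime b)
    (hH : 108 * T ^ 6 ≤ H) : cf2 (a, b) ∈ Fam H := by
  have hcI : IsCoprime (a : ℤ) (b : ℤ) := Nat.isCoprime_iff_coprime.2 hc
  have hbI : (1 : ℤ) ≤ b := by exact_mod_cast hb
  have habI : (b : ℤ) < a := by exact_mod_cast hab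
  have haTI : (a : ℤ) ≤ T := by exact_mod_cast haT
  have hHI : 108 * (T : ℤ) ^ 6 ≤ H := by exact_mod_cast hH
  set x : ℤ := (a : ℤ) with hx
  set y : ℤ := (b : ℤ) with hy
  set S : ℤ := (T : ℤ) with hS
  have hy0 : 0 < y := by linarith
  have hx0 : 0 < x := by linarith
  have hS0 : 0 < S := by linarith
  have hA : |(cf2 (a, b)).1| ≤ 3 * S ^ 2 := by
    simp only [cf2]
    rw [abs_neg, abs_of_nonneg (by positivity)]
    nlinarith
  have hB : |(cf2 (a, b)).2| ≤ 2 * S ^ 3 := by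
    simp only [cf2]
    rw [abs_of_nonneg (by positivity)]
    have e1 : x * y ≤ S * S := mul_le_mul haTI (by linarith) hy0.le hS0.le
    have e2 : x + y ≤ 2 * S := by linarith
    calc x * y * (x + y) ≤ (S * S) * (2 * S) :=
          mul_le_mul e1 e2 (by positivity) (by positivity)
      _ = 2 * S ^ 3 := by ring
  have hA3 : 4 * |(cf2 (a, b)).1| ^ 3 ≤ H := by
    calc 4 * |(cf2 (a, b)).1| ^ 3 ≤ 4 * (3 * S ^ 2) ^ 3 := by gcongr
      _ = 108 * S ^ 6 := by ring
      _ ≤ H := hHI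
  have hB2 : 27 * (cf2 (a, b)).2 ^ 2 ≤ H := by
    calc 27 * (cf2 (a, b)).2 ^ 2 = 27 * |(cf2 (a, b)).2| ^ 2 := by rw [sq_abs]
      _ ≤ 27 * (2 * S ^ 3) ^ 2 := by gcongr
      _ = 108 * S ^ 6 := by ring
      _ ≤ H := hHI
  unfold Fam
  simp only [mem_filter, mem_product, mem_Icc]
  have a1 := Pool.Agent.W29.RT.abs_le_cube (cf2 (a, b)).1
  have a2 := Pool.Agent.W29.RT.abs_le_sq (cf2 (a, b)).2
  have a3 := neg_abs_le (cf2 (a, b)).1
  have a4 := le_abs_self (cf2 (a, b)).1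
  have a5 := neg_abs_le (cf2 (a, b)).2
  have a6 := le_abs_self (cf2 (a, b)).2
  have a7 : 0 ≤ |(cf2 (a, b)).1| ^ 3 := by positivity
  have a8 : 0 ≤ (cf2 (a, b)).2 ^ 2 := by positivity
  refine ⟨⟨⟨by linarith, by linarith⟩, ⟨by linarith, by linarith⟩⟩, ?_, hA3, hB2, ?_, ?_⟩
  · simp only [cf2]
    rw [← hx, ← hy]
    have : 4 * (-(x ^ 2 + x * y + y ^ 2)) ^ 3 + 27 * (x * y * (x + y)) ^ 2 =
        -((x - y) ^ 2 * (2 * x + y) ^ 2 * (x + 2 * y) ^ 2) := by ring
    rw [this]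
    have h3 : x - y ≠ 0 := by intro h; linarith
    have : 0 < (x - y) ^ 2 * (2 * x + y) ^ 2 * (x + 2 * y) ^ 2 := by positivity
    intro h
    linarith
  · intro p hp hh
    exact minim2 hcI hp hh.1 hh.2
  · apply embE (a := (a : ℚ)) (b := (b : ℚ))
    · simp only [cf2]; push_cast; ring
    · simp only [cf2]; push_cast; ring
    · have : (b : ℚ) < a := by exact_mod_cast hab
      intro h
      linarith
    · have : 0 < (a : ℚ) := by
        have : 0 < a := by omega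
        exact_mod_cast this
      positivity
    · have : 0 < (a : ℚ) := by
        have : 0 < a := by omega
        exact_mod_cast this
      positivity

theorem low2 : LOW2 := by
  refine ⟨1 / 24, 108, 5, by norm_num, fun T H hT hH => ?_⟩
  have h1 : (Pool.Agent.W29.RT.SS T).card ≤ (Fam H).card := by
    apply card_le_card_of_injOn (fun t => cf2 (t.1, t.2))
    · intro t ht
      have ht' : t ∈ Pool.Agent.W29.RT.SS T := ht
      unfold Pool.Agent.W29.RT.SS at ht'
      rw [mem_sigma, mem_Icc, mem_filter, mem_range] at ht'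
      obtain ⟨⟨k1, k2⟩, k3, k4⟩ := ht'
      have hb : 1 ≤ t.2 := by
        rcases Nat.eq_zero_or_pos t.2 with h | h
        · rw [h, Nat.coprime_zero_right] at k4; omega
        · exact h
      exact mem_fam hb k3 k2 k4 hH
    · intro t ht t' ht' h
      have ht1 : t ∈ Pool.Agent.W29.RT.SS T := ht
      have ht1' : t' ∈ Pool.Agent.W29.RT.SS T := ht'
      unfold Pool.Agent.W29.RT.SS at ht1 ht1'
      rw [mem_sigma, mem_Icc, mem_filter, mem_range] at ht1 ht1'
      obtain ⟨⟨k1, k2⟩, k3, k4⟩ := ht1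
      obtain ⟨⟨k1', k2'⟩, k3', k4'⟩ := ht1'
      have hb : 1 ≤ t.2 := by
        rcases Nat.eq_zero_or_pos t.2 with h | h
        · rw [h, Nat.coprime_zero_right] at k4; omega
        · exact h
      have hb' : 1 ≤ t'.2 := by
        rcases Nat.eq_zero_or_pos t'.2 with h | h
        · rw [h, Nat.coprime_zero_right] at k4'; omega
        · exact h
      have h' : cf2 (t.1, t.2) = cf2 (t'.1, t'.2) := h
      simp only [cf2, Prod.mk.injEq] at h'
      obtain ⟨e1, e2⟩ := cf2_inj (by exact_mod_cast hb) (by exact_mod_cast k3)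
        (by exact_mod_cast hb') (by exact_mod_cast k3') h'.1 h'.2
      have e1' : t.1 = t'.1 := by exact_mod_cast e1
      have e2' : t.2 = t'.2 := by exact_mod_cast e2
      exact Sigma.ext e1' (heq_of_eq e2')
  have h2 := Pool.Agent.W29.RT.card_SS T hT
  have h3 : (T : ℝ) ^ 2 ≤ 24 * ((Pool.Agent.W29.RT.SS T).card : ℝ) := by exact_mod_cast h2
  have h4 : ((Pool.Agent.W29.RT.SS T).card : ℝ) ≤ ((Fam H).card : ℝ) := by exact_mod_cast h1
  linarith

end Pool.Agent.K6.H5.TT
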