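import Pool.Agent.K6.H34.TT.Stm

/-!
# Project TT, part OMG: `A ^ ω(n) ≤ C n ^ ε`
-/

set_option autoImplicit false

namespace Pool.Agent.K6.H5.TT

open Finset Pool.Agent.K6.H34.TT

theorem omg : OMG := by
  intro A ε hε
  obtain ⟨P, hP⟩ : ∃ P : ℕ, ∀ p : ℕ, P ≤ p → (A : ℝ) ≤ (p : ℝ) ^ ε := by
    have h := (tendsto_rpow_atTop hε).comp tendsto_natCast_atTop_atTop
    have h2 := h.eventually (Filter.eventually_ge_atTop (A : ℝ))
    obtain ⟨P, hP⟩ := Filter.eventually_atTop.1 h2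
    exact ⟨P, fun p hp => hP p hp⟩
  refine ⟨((A : ℝ) + 1) ^ P, by positivity, fun n hn => ?_⟩
  have hA1 : (1 : ℝ) ≤ (A : ℝ) + 1 := by
    have : (0 : ℝ) ≤ A := Nat.cast_nonneg A
    linarith
  have hA0 : (0 : ℝ) ≤ A := Nat.cast_nonneg A
  have h1 : (A : ℝ) ^ n.primeFactors.card = ∏ p ∈ n.primeFactors, (A : ℝ) := by
    rw [prod_const]
  have h2 : ∏ p ∈ n.primeFactors, (A : ℝ) ≤
      ∏ p ∈ n.primeFactors, ((if p < P then (A : ℝ) + 1 else 1) * (p : ℝ) ^ ε) := by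
    refine prod_le_prod (fun _ _ => hA0) fun p hp => ?_
    have hp1 : (1 : ℝ) ≤ (p : ℝ) ^ ε := by
      refine Real.one_le_rpow ?_ hε.le
      exact_mod_cast (Nat.prime_of_mem_primeFactors hp).one_lt.le
    split_ifs with h
    · calc (A : ℝ) ≤ ((A : ℝ) + 1) * 1 := by linarith
        _ ≤ _ := mul_le_mul_of_nonneg_left hp1 (by linarith)
    · rw [one_mul]
      exact hP p (not_lt.1 h)
  have h3 : ∏ p ∈ n.primeFactors, (if p < P then (A : ℝ) + 1 else 1) ≤ ((A : ℝ) + 1) ^ P := by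
    rw [← prod_filter, prod_const]
    refine pow_le_pow_right₀ hA1 ?_
    have : n.primeFactors.filter (fun p => p < P) ⊆ range P := by
      intro p hp
      rw [mem_filter] at hp
      exact mem_range.2 hp.2
    simpa using card_le_card this
  have h4 : ∏ p ∈ n.primeFactors, (p : ℝ) ^ ε ≤ (n : ℝ) ^ ε := by
    rw [Real.finsetProd_rpow _ _ (fun p _ => Nat.cast_nonneg p)]
    refine Real.rpow_le_rpow (prod_nonneg fun p _ => Nat.cast_nonneg p) ?_ hε.le
    have h5 := Nat.le_of_dvd (by omega) (Nat.prod_primeFactors_dvd n)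
    have h6 : ((∏ p ∈ n.primeFactors, p : ℕ) : ℝ) ≤ n := by exact_mod_cast h5
    rw [Nat.cast_prod] at h6
    exact h6
  rw [h1]
  refine h2.trans ?_
  rw [prod_mul_distrib]
  refine mul_le_mul h3 h4 (prod_nonneg fun p _ => by positivity) (by positivity)

end Pool.Agent.K6.H5.TT
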